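import Pool.Agent.ZES.StmtsB

/-!
# Squad ZES, row ALN
-/

set_option autoImplicit false

namespace Pool.Agent.ZES.H62

open scoped BigOperators InnerProductSpace

theorem aln : AlnStmt := by
  intro V _ _ a b ω η x y
  refine ⟨?_, ?_, ?_, ?_, ?_⟩
  · unfold al
    rw [Complex.norm_exp, Complex.re_ofReal_mul, Complex.add_re, Complex.ofReal_re,
      norm_add_sq (𝕜 := ℂ) x ω, inner_re_symm x ω]
    congr 1
    show a * ((inner ℂ ω x : ℂ).re + ‖ω‖ ^ 2 / 2) =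
      a / 2 * (‖x‖ ^ 2 + 2 * (inner ℂ ω x : ℂ).re + ‖ω‖ ^ 2 - ‖x‖ ^ 2)
    ring
  · unfold al
    rw [← Complex.exp_add, inner_add_right]
    congr 1
    ring
  · unfold al
    rw [← Complex.exp_add, Complex.ofReal_add]
    congr 1
    ring
  · unfold al
    rw [inner_zero_left, norm_zero]
    simp
  · unfold al
    rw [← Complex.exp_add, ← Complex.exp_add, inner_add_right, inner_add_left,
      norm_add_sq (𝕜 := ℂ) ω η]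
    congr 1
    have h1 : (inner ℂ ω η : ℂ) = (((inner ℂ ω η : ℂ).re : ℝ) : ℂ) +
      (((inner ℂ ω η : ℂ).im : ℝ) : ℂ) * Complex.I := (Complex.re_add_im _).symm
    have h2 : ((((‖ω‖ ^ 2 + 2 * RCLike.re (inner ℂ ω η : ℂ) + ‖η‖ ^ 2) / 2 : ℝ)) : ℂ) =
        ((‖ω‖ ^ 2 / 2 : ℝ) : ℂ) + (((inner ℂ ω η : ℂ).re : ℝ) : ℂ) + ((‖η‖ ^ 2 / 2 : ℝ) : ℂ) := by
      rw [← Complex.ofReal_add, ← Complex.ofReal_add]
      congr 1
      show (‖ω‖ ^ 2 + 2 * (inner ℂ ω η : ℂ).re + ‖η‖ ^ 2) / 2 = _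
      ring
    rw [h2]
    generalize hz : (inner ℂ ω η : ℂ) = w at h1 ⊢
    rw [show (a : ℂ) * (inner ℂ ω x + w + ((‖ω‖ ^ 2 / 2 : ℝ) : ℂ)) +
      (a : ℂ) * (inner ℂ η x + ((‖η‖ ^ 2 / 2 : ℝ) : ℂ)) =
      (a : ℂ) * (inner ℂ ω x + inner ℂ η x + ((‖ω‖ ^ 2 / 2 : ℝ) : ℂ) +
        ((‖η‖ ^ 2 / 2 : ℝ) : ℂ)) + (a : ℂ) * w by ring]
    rw [show (a : ℂ) * w = (a : ℂ) * ((w.re : ℂ) + (w.im : ℂ) * Complex.I) by rw [← h1]]
    ring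

end Pool.Agent.ZES.H62
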