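import Pool.Agent.ZES.StmtsG

/-!
# Squad ZES, row PWD
-/

set_option autoImplicit false

namespace Pool.Agent.ZES.H62

open scoped BigOperators

/-- the algebra of the entire functions -/
def ent (V : Type) [NormedAddCommGroup V] [NormedSpace ℂ V] : Subalgebra ℂ (V → ℂ) where
  carrier := {f | Differentiable ℂ f}
  mul_mem' := fun {a b} (ha : Differentiable ℂ a) (hb : Differentiable ℂ b) => ha.mul hb
  add_mem' := fun {a b} (ha : Differentiable ℂ a) (hb : Differentiable ℂ b) => ha.add hb
  algebraMap_mem' := fun c => differentiable_const c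

theorem pow_le (V : Type) [NormedAddCommGroup V] [NormedSpace ℂ V] (E : Submodule ℂ (V → ℂ))
    (hE : E ≤ Subalgebra.toSubmodule (ent V)) (m : ℕ) :
    E ^ m ≤ Subalgebra.toSubmodule (ent V) := by
  induction m with
  | zero =>
    rw [pow_zero]
    exact Submodule.one_le.2 (ent V).one_mem
  | succ m ih =>
    rw [pow_succ]
    exact Submodule.mul_le.2 (fun a ha b hb => (ent V).mul_mem (ih ha) (hE hb))

theorem pwd : PwdStmt := by
  intro V _ _ E hE m
  refine ⟨?_, ?_, ?_⟩
  · intro f hf
    exact pow_le V E (fun g hg => hE.dif g hg) m hf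
  · have h1 : E.FG := Module.Finite.iff_fg.1 hE.fin
    exact Module.Finite.iff_fg.2 (h1.pow m)
  · intro q hq
    exact Submodule.pow_mem_pow E hq m

end Pool.Agent.ZES.H62
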